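import Pool.Agent.P.MP_07c576_gt.Bn.Chart

/-! A Busemann G-space in which the intersections of small balls near one point are connected is a
manifold. -/

namespace Pool.Agent.Results.MP_07c576_gt.ConnectedBalls

open Metric Pool.Agent.P.MP_07c576_gt.Ql Pool.Agent.P.MP_07c576_gt.Bn

theorem result :
    ∀ (X : Type) [MetricSpace X] [ProperSpace X],
      (∀ x z : X, x ≠ z → ∃ y : X, y ≠ x ∧ y ≠ z ∧ dist x y + dist y z = dist x z) →
      (∀ p : X, ∃ ρ : ℝ, 0 < ρ ∧ ∀ x y : X, x ∈ Metric.ball p ρ → y ∈ Metric.ball p ρ →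
          x ≠ y → ∃ z : X, z ≠ y ∧ dist x y + dist y z = dist x z) →
      (∀ x y z₁ z₂ : X, x ≠ y → dist x y + dist y z₁ = dist x z₁ →
          dist x y + dist y z₂ = dist x z₂ → dist y z₁ = dist y z₂ → z₁ = z₂) →
      ∀ (o : X) (r : ℝ), 0 < r →
      (∀ S : Finset (X × ℝ), (∀ q ∈ S, q.1 ∈ ball o r ∧ 0 ≤ q.2 ∧ q.2 < r) →
          IsPreconnected (⋂ q ∈ S, closedBall q.1 q.2)) →
      ∃ m : ℕ, Nonempty (ChartedSpace (EuclideanSpace ℝ (Fin m)) X) := by
  classical
  intro X _ _ h1 h2 h3 o r hr hc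
  have hL : ∀ p : X, ∀ r > 0, ∃ R ≤ r, Loc p R := fun p r hr => by
    obtain ⟨ρ, hρ, h⟩ := h2 p
    have m : ball p (5 * min r (ρ / 5)) ⊆ ball p ρ :=
      ball_subset_ball (by linarith [min_le_right r (ρ / 5)])
    exact ⟨_, min_le_left r (ρ / 5), lt_min hr (by positivity), h1,
      fun x y hx hy => h x y (m hx) (m hy), h3⟩
  obtain ⟨R, hR, L⟩ := hL o r hr
  have R0 := L.pos
  have H : Hyp o (R / 10) := ⟨by rwa [mul_div_cancel₀ R (by norm_num)], fun J hJ y y' hy hy' => by
    have := hc (J.image fun i => (i, max (dist i y) (dist i y'))) fun q hq => by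
      obtain ⟨i, hi, rfl⟩ := Finset.mem_image.1 hq
      have := hJ i hi
      exact ⟨mem_ball.2 (by linarith), dist_nonneg.trans (le_max_left _ _),
        max_lt (by linarith [dist_triangle_right i y o]) (by linarith [dist_triangle_right i y' o])⟩
    convert this using 1
    ext w
    simp only [Set.mem_ofPred_eq, Set.mem_iInter, Finset.forall_mem_image, mem_closedBall']⟩
  obtain ⟨n, p, h⟩ := H.chart
  exact ⟨n, charted (fun p => (hL p 1 one_pos).imp fun _ h => h.2) h⟩

end Pool.Agent.Results.MP_07c576_gt.ConnectedBalls
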