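import Pool.Agent.P.MP_07c576_gt.Final
import Pool.Agent.P.MP_07c576_gt.Miss

/-! Every Busemann G-space of finite covering dimension at least five has the disjoint discs
property. -/

namespace Pool.Agent.Results.MP_07c576_gt.DDPFull

theorem result :
    ∀ (X : Type) [MetricSpace X] [ProperSpace X],
      (∀ x z : X, x ≠ z → ∃ y : X, y ≠ x ∧ y ≠ z ∧ dist x y + dist y z = dist x z) →
      (∀ p : X, ∃ ρ : ℝ, 0 < ρ ∧ ∀ x y : X, x ∈ Metric.ball p ρ → y ∈ Metric.ball p ρ →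
          x ≠ y → ∃ z : X, z ≠ y ∧ dist x y + dist y z = dist x z) →
      (∀ x y z₁ z₂ : X, x ≠ y → dist x y + dist y z₁ = dist x z₁ →
          dist x y + dist y z₂ = dist x z₂ → dist y z₁ = dist y z₂ → z₁ = z₂) →
      (∃ n : ℕ, ∀ 𝒰 : Finset (Set X), (∀ U ∈ 𝒰, IsOpen U) → ⋃₀ (↑𝒰 : Set (Set X)) = Set.univ →
          ∃ 𝒱 : Finset (Set X), (∀ V ∈ 𝒱, IsOpen V) ∧ ⋃₀ (↑𝒱 : Set (Set X)) = Set.univ ∧
            (∀ V ∈ 𝒱, ∃ U ∈ 𝒰, V ⊆ U) ∧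
            ∀ x : X, ∀ 𝒲 : Finset (Set X), 𝒲 ⊆ 𝒱 → (∀ V ∈ 𝒲, x ∈ V) → 𝒲.card ≤ n + 1) →
      ¬(∀ 𝒰 : Finset (Set X), (∀ U ∈ 𝒰, IsOpen U) → ⋃₀ (↑𝒰 : Set (Set X)) = Set.univ →
          ∃ 𝒱 : Finset (Set X), (∀ V ∈ 𝒱, IsOpen V) ∧ ⋃₀ (↑𝒱 : Set (Set X)) = Set.univ ∧
            (∀ V ∈ 𝒱, ∃ U ∈ 𝒰, V ⊆ U) ∧
            ∀ x : X, ∀ 𝒲 : Finset (Set X), 𝒲 ⊆ 𝒱 → (∀ V ∈ 𝒲, x ∈ V) → 𝒲.card ≤ 4 + 1) →
      ∀ (f g : C(unitInterval × unitInterval, X)) (ε : ℝ), 0 < ε →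
        ∃ f' g' : C(unitInterval × unitInterval, X), dist f f' < ε ∧ dist g g' < ε ∧
          Disjoint (Set.range f') (Set.range g') := by
  intro X _ _ h1 h2 h3 ⟨n, hn⟩ h4 f g ε hε
  have hL : ∀ o : X, ∃ R, Pool.Agent.P.MP_07c576_gt.Loc o R := fun o => by
    obtain ⟨ρ, hρ, h⟩ := h2 o
    refine ⟨ρ / 5, by positivity, h1, ?_, h3⟩
    rwa [show 5 * (ρ / 5) = ρ by ring]
  exact Pool.Agent.P.MP_07c576_gt.ddp hL (Pool.Agent.P.MP_07c576_gt.hs_of_dim hL hn h4) f g hε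

end Pool.Agent.Results.MP_07c576_gt.DDPFull
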