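import Pool.Agent.P.MP_07c576_gt.Ql.Glob

/-! A Busemann G-space whose geodesic contractions are quasi-linear on one ball is a manifold. -/

namespace Pool.Agent.Results.MP_07c576_gt.QuasiLinear

open Metric Pool.Agent.P.MP_07c576_gt.Ql

theorem result :
    ∀ (X : Type) [MetricSpace X] [ProperSpace X],
      (∀ x z : X, x ≠ z → ∃ y : X, y ≠ x ∧ y ≠ z ∧ dist x y + dist y z = dist x z) →
      (∀ p : X, ∃ ρ : ℝ, 0 < ρ ∧ ∀ x y : X, x ∈ Metric.ball p ρ → y ∈ Metric.ball p ρ →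
          x ≠ y → ∃ z : X, z ≠ y ∧ dist x y + dist y z = dist x z) →
      (∀ x y z₁ z₂ : X, x ≠ y → dist x y + dist y z₁ = dist x z₁ →
          dist x y + dist y z₂ = dist x z₂ → dist y z₁ = dist y z₂ → z₁ = z₂) →
      ∀ (o : X) (r : ℝ), 0 < r →
      (∀ δ : ℝ, 0 < δ → ∃ c : ℝ, 0 < c ∧ ∀ x ∈ ball o r, ∀ y ∈ ball o r, ∀ z ∈ ball o r,
          ∀ (t : ℝ) (p q : X), Div x y t p → Div x z t q → δ ≤ dist y z → c * t ≤ dist p q) →
      (∀ ε : ℝ, 0 < ε → ∃ δ : ℝ, 0 < δ ∧ ∀ x ∈ ball o r, ∀ y ∈ ball o r, ∀ z ∈ ball o r,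
          ∀ (t : ℝ) (p q : X), Div x y t p → Div x z t q → dist y z ≤ δ → dist p q ≤ ε * t) →
      (∃ C : ℝ,
        (∀ x ∈ ball o r, ∀ y ∈ ball o r, ∀ z ∈ ball o r, ∀ (t : ℝ) (p q : X),
          Div x y t p → Div x z t q → 1 / 2 ≤ t → dist p q ≤ C * dist y z) ∨
        (∀ x ∈ ball o r, ∀ y ∈ ball o r, ∀ z ∈ ball o r, ∀ (t : ℝ) (p q : X),
          Div x y t p → Div x z t q → 1 / 2 ≤ t → dist y z ≤ C * dist p q)) →
      ∃ m : ℕ, Nonempty (ChartedSpace (EuclideanSpace ℝ (Fin m)) X) := by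
  intro X _ _ h1 h2 h3 o r hr a1 a2 ⟨C, a3⟩
  have hL : ∀ p : X, ∀ r > 0, ∃ R ≤ r, Loc p R := fun p r hr => by
    obtain ⟨ρ, hρ, h⟩ := h2 p
    have m : ball p (5 * min r (ρ / 5)) ⊆ ball p ρ :=
      ball_subset_ball (by linarith [min_le_right r (ρ / 5)])
    exact ⟨_, min_le_left r (ρ / 5), lt_min hr (by positivity), h1,
      fun x y hx hy => h x y (m hx) (m hy), h3⟩
  obtain ⟨R, hR, L⟩ := hL o r hr
  have m : ball o R ⊆ ball o r := ball_subset_ball hR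
  have c : ∀ u v : X, C * dist u v ≤ max C 1 * dist u v := fun u v =>
    mul_le_mul_of_nonneg_right (le_max_left _ _) dist_nonneg
  have H : Ctl o R (max C 1) := ⟨L, le_max_right _ _,
    fun δ hδ => (a1 δ hδ).imp fun c h => ⟨h.1, fun x hx y hy z hz t t0 t1 =>
      h.2 x (m hx) y (m hy) z (m hz) t _ _ (L.div hx hy t0 t1) (L.div hx hz t0 t1)⟩,
    fun ε hε => (a2 ε hε).imp fun δ h => ⟨h.1, fun x hx y hy z hz t t0 t1 =>
      h.2 x (m hx) y (m hy) z (m hz) t _ _ (L.div hx hy t0 t1) (L.div hx hz t0 t1)⟩,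
    a3.imp (fun h x hx y hy z hz t t0 t1 => (h x (m hx) y (m hy) z (m hz) t _ _
        (L.div hx hy (by linarith) t1) (L.div hx hz (by linarith) t1) t0).trans (c _ _))
      fun h x hx y hy z hz t t0 t1 => (h x (m hx) y (m hy) z (m hz) t _ _
        (L.div hx hy (by linarith) t1) (L.div hx hz (by linarith) t1) t0).trans (c _ _)⟩
  obtain ⟨n, h⟩ := H.chart
  exact ⟨n, charted (fun p => (hL p 1 one_pos).imp fun _ h => h.2) h⟩

end Pool.Agent.Results.MP_07c576_gt.QuasiLinear
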